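import Pool.Agent.Y71.H.RamEa
import Pool.Agent.Y290.G.RamGb

/-!
# Cover of the base, wild ramification data: the data at the primes over a given prime
-/

set_option autoImplicit false
set_option linter.overlappingInstances false
set_option linter.unusedSectionVars false

namespace Pool.Agent.Y71.H

open Pool.Agent.Y223.G
open Pool.Agent.Y290.G (Ine mem_Ine mv T_inv T_inv' mem_mv mem_mv' mv_pow mv_mv mv_max mv_ne
  mv_comap conj_mv conj_mv' Ine_mv Ine_mv' zp Orb)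

section

variable {k O K G : Type} [CommRing k] [IsDomain k] [CommRing O] [IsDomain O]
  [IsDedekindDomain O] [Field K] [Group G] [Algebra k O] [Algebra O K] [Algebra k K]
  [IsScalarTower k O K] {ρ : G →* (K ≃ₐ[k] K)} {T : G →* (O ≃ₐ[k] O)}

/-- The ramification for one element of prime order. -/
theorem ram1E [Finite G] (hR : S_RAM1) (h : GE k O K G ρ T) {p : ℕ} {τ : G} (hp : p.Prime)
    (hτ : τ ^ p = 1) (hne : τ ≠ 1) {P : Ideal O} (hmax : P.IsMaximal) (hbot : P ≠ ⊥)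
    (hδ : ∀ o, T τ o - o ∈ P) :
    ∃ l : ℕ, (∀ o, T τ o - o ∈ P ^ (l + 1)) ∧ (∃ π ∈ P, T τ π - π ∉ P ^ (l + 2)) ∧
      (p : O) ∈ P ^ ((p - 1) * l) ∧ (l = 0 → (p : O) ∉ P) := by
  classical
  let k' : Subalgebra k O := AlgHom.equalizer ((T τ : O ≃ₐ[k] O) : O →ₐ[k] O) (AlgHom.id k O)
  have hk' : ∀ o : O, o ∈ k' ↔ T τ o = o := fun o => Iff.rfl
  have hKalg : ∀ c : k', algebraMap k' K c = algebraMap O K (c : O) := fun c => rfl
  have hOalg : ∀ c : k', algebraMap k' O c = (c : O) := fun c => rfl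
  have : IsScalarTower k' O K := inferInstance
  let τ' : K ≃ₐ[k'] K := AlgEquiv.ofRingEquiv (f := (ρ τ : K ≃ₐ[k] K).toRingEquiv) (by
    intro c
    rw [hKalg]
    change ρ τ (algebraMap O K (c : O)) = _
    rw [h.com, (hk' _).1 c.2])
  let t' : O ≃ₐ[k'] O := AlgEquiv.ofRingEquiv (f := (T τ : O ≃ₐ[k] O).toRingEquiv) (by
    intro c
    rw [hOalg]
    exact (hk' _).1 c.2)
  have hτ' : ∀ x, τ' x = ρ τ x := fun x => rfl
  have ht' : ∀ x, t' x = T τ x := fun x => rfl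
  have hfin := h.fin
  have hG : GSet k' O K p τ' t' := by
    constructor
    · exact hp
    · intro h0
      have := Fact.mk hp
      apply h.cg
      have h1 : orderOf τ = p := orderOf_eq_prime hτ hne
      obtain ⟨c, hc⟩ := orderOf_dvd_natCard τ
      rw [hc, h1, Nat.cast_mul, h0, zero_mul]
    · exact Module.Finite.of_restrictScalars_finite k k' O
    · exact h.inj
    · intro a b hab
      rw [hKalg, hKalg] at hab
      exact Subtype.ext (h.inj hab)
    · intro x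
      have h1 : ∀ n : ℕ, τ'^[n] x = (ρ τ)^[n] x := by
        intro n
        induction n with
        | zero => rfl
        | succ n ih => rw [Function.iterate_succ_apply', Function.iterate_succ_apply', ih, hτ']
      rw [h1, rho_iter, hτ, map_one]
      rfl
    · intro o
      exact h.com τ o
    · by_contra hcon
      push Not at hcon
      exact hne (h.fai τ hcon)
    · intro o ho
      exact ⟨⟨o, ho⟩, rfl⟩
    · exact h.resf
  exact hR k' O K p τ' t' hG P hmax hbot hδ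

/-- The group acts transitively on the primes over a given prime. -/
lemma transE [Finite G] (h : GE k O K G ρ T) {P Q : Ideal O} (hP : P.IsMaximal)
    (hQ : Q.IsMaximal) (e : P.comap (algebraMap k O) = Q.comap (algebraMap k O)) :
    ∃ g, Q = mv T g P := by
  classical
  have := Fintype.ofFinite G
  have hPp : P.IsPrime := hP.isPrime
  have h1 : (Q : Set O) ⊆ ⋃ g ∈ ((Finset.univ : Finset G) : Set G), (mv T g P : Set O) := by
    intro x hx
    have hN : ∀ g, T g (∏ a : G, T a x) = ∏ a : G, T a x := by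
      intro g
      rw [map_prod]
      refine Fintype.prod_equiv (Equiv.mulLeft g) _ _ fun a => ?_
      rw [Equiv.coe_mulLeft, map_mul, AlgEquiv.mul_apply]
    obtain ⟨c, hc⟩ := h.fix _ hN
    have h2 : c ∈ Q.comap (algebraMap k O) := by
      rw [Ideal.mem_comap, hc, ← Finset.mul_prod_erase Finset.univ _ (Finset.mem_univ (1 : G))]
      rw [map_one, AlgEquiv.one_apply]
      exact Q.mul_mem_right _ hx
    rw [← e, Ideal.mem_comap, hc] at h2
    obtain ⟨a, _, ha⟩ := (Ideal.IsPrime.prod_mem_iff).1 h2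
    refine Set.mem_iUnion₂.2 ⟨a⁻¹, Finset.mem_coe.2 (Finset.mem_univ _), ?_⟩
    rw [SetLike.mem_coe, mem_mv, inv_inv]
    exact ha
  have h2 := (Ideal.subset_union_prime (s := (Finset.univ : Finset G))
    (f := fun g => mv T g P) 1 1 (fun i _ _ _ => (mv_max i hP).isPrime)).1 h1
  obtain ⟨g, _, hg⟩ := h2
  exact ⟨g, hQ.eq_of_le (mv_max g hP).ne_top hg⟩

/-- The wild inertia group. -/
def Wil (T : G →* (O ≃ₐ[k] O)) (P : Ideal O) : Subgroup G where
  carrier := {g | (∀ o, T g o - o ∈ P) ∧ ∀ o ∈ P, T g o - o ∈ P ^ 2}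
  mul_mem' := by
    rintro a b ⟨ha, ha2⟩ ⟨hb, hb2⟩
    refine ⟨fun o => ?_, fun o ho => ?_⟩
    · rw [map_mul, AlgEquiv.mul_apply]
      have h1 : T a (T b o) - o = (T a (T b o) - T b o) + (T b o - o) := by ring
      rw [h1]
      exact P.add_mem (ha _) (hb _)
    · rw [map_mul, AlgEquiv.mul_apply]
      have h1 : T a (T b o) - o = (T a (T b o) - T b o) + (T b o - o) := by ring
      have h2 : T b o ∈ P := by
        have h3 := P.add_mem (hb o) ho
        rwa [sub_add_cancel] at h3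
      rw [h1]
      exact (P ^ 2).add_mem (ha2 _ h2) (hb2 _ ho)
  one_mem' := by
    refine ⟨fun o => ?_, fun o _ => ?_⟩
    · rw [map_one, AlgEquiv.one_apply, sub_self]
      exact P.zero_mem
    · rw [map_one, AlgEquiv.one_apply, sub_self]
      exact (P ^ 2).zero_mem
  inv_mem' := by
    rintro a ⟨ha, ha2⟩
    have hi : ∀ o, T a⁻¹ o - o = -(T a (T a⁻¹ o) - T a⁻¹ o) := by
      intro o
      rw [T_inv]
      ring
    have h1 : ∀ o, T a⁻¹ o - o ∈ P := by
      intro o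
      rw [hi]
      exact P.neg_mem (ha _)
    refine ⟨h1, fun o ho => ?_⟩
    rw [hi]
    refine (P ^ 2).neg_mem (ha2 _ ?_)
    have h3 := P.add_mem (h1 o) ho
    rwa [sub_add_cancel] at h3

lemma mem_Wil {P : Ideal O} {g : G} :
    g ∈ Wil T P ↔ (∀ o, T g o - o ∈ P) ∧ ∀ o ∈ P, T g o - o ∈ P ^ 2 := Iff.rfl

lemma Wil_mv (g s : G) (P : Ideal O) : g * s * g⁻¹ ∈ Wil T (mv T g P) ↔ s ∈ Wil T P := by
  rw [mem_Wil, mem_Wil, conj_mv']
  refine and_congr_right fun _ => ⟨fun h o ho => ?_, fun h o ho => ?_⟩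
  · have h1 := h (T g o) ((mem_mv' g P o).2 ho)
    rw [← mv_pow, conj_mv, T_inv'] at h1
    exact h1
  · rw [← mv_pow, conj_mv]
    exact h _ ((mem_mv g P o).1 ho)

lemma Wil_mv' (g s : G) (P : Ideal O) : s ∈ Wil T (mv T g P) ↔ g⁻¹ * s * g ∈ Wil T P := by
  have h0 := Wil_mv (T := T) g (g⁻¹ * s * g) P
  have h1 : g * (g⁻¹ * s * g) * g⁻¹ = s := by group
  rwa [h1] at h0

/-- **The data at the primes of an orbit.** -/
theorem dataE [Finite G] (hR : S_RAM1) (h : GE k O K G ρ T) {P : Ideal O} (hP : P.IsMaximal)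
    (hP0 : P ≠ ⊥) {g₁ : G} (hg₁ : g₁ ≠ 1) (hg₁P : g₁ ∈ Wil T P) :
    ∃ (p l : Orb T P → ℕ) (τ : Orb T P → G),
      PreE T (fun i : Orb T P => i.1) p l τ := by
  classical
  have hmx : ∀ i : Orb T P, i.1.IsMaximal := by
    rintro ⟨Q, g, rfl⟩
    exact mv_max g hP
  have hne : ∀ i : Orb T P, i.1 ≠ ⊥ := by
    rintro ⟨Q, g, rfl⟩
    exact mv_ne g hP0
  have hcj0 : ∀ (g : G) (i : Orb T P), ∃ j : Orb T P, j.1 = mv T g i.1 := by
    rintro g ⟨Q, g', rfl⟩
    exact ⟨⟨mv T g (mv T g' P), g * g', mv_mv g g' P⟩, rfl⟩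
  obtain ⟨p, τ₀, hp, hτ₀, hz⟩ := h.inr P hP hP0
  have hg₁z : g₁ ∈ Subgroup.zpowers τ₀ := hz g₁ hg₁P.1 hg₁P.2
  have hτz : τ₀ ∈ Subgroup.zpowers g₁ := zp hp hτ₀ hg₁z hg₁
  have hτI : τ₀ ∈ Wil T P := by
    have h1 : Subgroup.zpowers g₁ ≤ Wil T P := by
      rw [Subgroup.zpowers_le]
      exact hg₁P
    exact h1 hτz
  have hτ1 : τ₀ ≠ 1 := by
    rintro rfl
    rw [Subgroup.zpowers_one_eq_bot, Subgroup.mem_bot] at hg₁z
    exact hg₁ hg₁z
  obtain ⟨l, hl1, ⟨π, hπ, hl2⟩, hl3, hl4⟩ := ram1E hR h hp hτ₀ hτ1 hP hP0 hτI.1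
  have hch : ∀ i : Orb T P, ∃ g, i.1 = mv T g P := fun i => i.2
  choose γ hγ using hch
  have hord : ∀ a : G, (a * τ₀ * a⁻¹) ^ p = 1 := by
    intro a
    rw [conj_pow, hτ₀]
    group
  have hne1 : ∀ a : G, a * τ₀ * a⁻¹ ≠ 1 := by
    intro a ha
    apply hτ1
    have h1 : τ₀ = a⁻¹ * (a * τ₀ * a⁻¹) * a := by group
    rw [h1, ha]
    group
  have hgen : ∀ i : Orb T P, ∀ s ∈ Wil T i.1, s ∈ Subgroup.zpowers (γ i * τ₀ * (γ i)⁻¹) := by
    intro i s hs
    rw [hγ i, Wil_mv'] at hs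
    obtain ⟨n, hn⟩ := Subgroup.mem_zpowers_iff.1 (hz _ hs.1 hs.2)
    refine Subgroup.mem_zpowers_iff.2 ⟨n, ?_⟩
    rw [conj_zpow, hn]
    group
  refine ⟨fun _ => p, fun _ => l, fun i => γ i * τ₀ * (γ i)⁻¹, ?_⟩
  constructor
  · exact hmx
  · exact hne
  · exact fun i j e => Subtype.ext e
  · intro i
    refine ⟨hp, ?_, ?_, ?_, ?_, hord _, fun g hg hg2 => hgen i g ⟨hg, hg2⟩⟩
    · intro o
      change _ ∈ i.1 ^ (l + 1)
      rw [hγ i, ← mv_pow, conj_mv]
      exact hl1 _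
    · refine ⟨T (γ i) π, ?_, ?_⟩
      · change _ ∈ i.1
        rw [hγ i, mem_mv']
        exact hπ
      · change _ ∉ i.1 ^ (l + 2)
        rw [hγ i, ← mv_pow, conj_mv, T_inv']
        exact hl2
    · change _ ∈ i.1 ^ ((p - 1) * l)
      rw [hγ i, ← mv_pow, mem_mv, map_natCast]
      exact hl3
    · intro hl
      change _ ∉ i.1
      rw [hγ i, mem_mv, map_natCast]
      exact hl4 hl
  · intro g i
    obtain ⟨j, hj⟩ := hcj0 g i
    refine ⟨j, fun o => ?_, rfl, rfl, ?_⟩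
    · change o ∈ i.1 ↔ T g o ∈ j.1
      rw [hj, mem_mv']
    · have h1 : γ i * τ₀ * (γ i)⁻¹ ∈ Wil T i.1 := by
        rw [hγ i, Wil_mv]
        exact hτI
      have h2 : g * (γ i * τ₀ * (γ i)⁻¹) * g⁻¹ ∈ Wil T j.1 := by
        rw [hj, Wil_mv]
        exact h1
      have h3 := hgen j _ h2
      have h4 : g * (γ i * τ₀ * (γ i)⁻¹) * g⁻¹ ≠ 1 := by
        have e : g * (γ i * τ₀ * (γ i)⁻¹) * g⁻¹ = (g * γ i) * τ₀ * (g * γ i)⁻¹ := by group
        rw [e]
        exact hne1 _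
      have h5 := zp hp (hord (γ j)) h3 h4
      rw [← mem_powers_iff_mem_zpowers] at h3 h5
      obtain ⟨n, hn⟩ := h3
      obtain ⟨m, hm⟩ := h5
      exact ⟨⟨n, hn.symm⟩, ⟨m, hm.symm⟩⟩

/-- Separation of a prime from its conjugates. -/
lemma sepE [Finite G] {P : Ideal O} (hP : P.IsMaximal) (g₀ : G) :
    ∃ t, t ∉ mv T g₀ P ∧ ∀ g, mv T g P ≠ mv T g₀ P → t ∈ mv T g P := by
  classical
  have := Fintype.ofFinite G
  have h1 : ∀ g, ∃ t, t ∉ mv T g₀ P ∧ (mv T g P ≠ mv T g₀ P → t ∈ mv T g P) := by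
    intro g
    by_cases hg : mv T g P = mv T g₀ P
    · exact ⟨1, fun hc => (mv_max g₀ hP).ne_top ((Ideal.eq_top_iff_one _).2 hc),
        fun hc => absurd hg hc⟩
    · have h2 : ¬ mv T g P ≤ mv T g₀ P := fun hle =>
        hg ((mv_max g hP).eq_of_le (mv_max g₀ hP).ne_top hle)
      obtain ⟨t, ht, ht2⟩ := SetLike.not_le_iff_exists.1 h2
      exact ⟨t, ht2, fun _ => ht⟩
  choose t ht ht2 using h1
  have hpr : (mv T g₀ P).IsPrime := (mv_max g₀ hP).isPrime
  refine ⟨∏ g, t g, fun hc => ?_, fun g hg => ?_⟩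
  · obtain ⟨g, _, hg⟩ := Ideal.IsPrime.prod_mem_iff.1 hc
    exact ht g hg
  · exact Ideal.mem_of_dvd _ (Finset.dvd_prod_of_mem _ (Finset.mem_univ g)) (ht2 g hg)

/-- The norm. -/
lemma normE [Fintype G] (h : GE k O K G ρ T) (x : O) :
    ∃ c : k, algebraMap k O c = ∏ a : G, T a x := by
  have hN : ∀ g, T g (∏ a : G, T a x) = ∏ a : G, T a x := by
    intro g
    rw [map_prod]
    refine Fintype.prod_equiv (Equiv.mulLeft g) _ _ fun a => ?_
    rw [Equiv.coe_mulLeft, map_mul, AlgEquiv.mul_apply]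
  exact h.fix _ hN

/-- **The local generator.** -/
theorem chE [Finite G] (h : GE k O K G ρ T) {P : Ideal O} (hP : P.IsMaximal) (hP0 : P ≠ ⊥) :
    ∃ (π : O) (ν : k), π ≠ 0 ∧ (∀ g, π ∈ mv T g P ∧ π ∉ mv T g P ^ 2) ∧
      (∀ g, algebraMap k O ν ∉ mv T g P) ∧
      ∀ x, (∀ g, x ∈ mv T g P) → ∃ y, algebraMap k O ν * x = y * π := by
  classical
  have := Fintype.ofFinite G
  set I : Ideal O := ⨅ g, mv T g P with hI
  have hmem : ∀ x, x ∈ I ↔ ∀ g, x ∈ mv T g P := fun x => Submodule.mem_iInf _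
  have hst : ∀ a x, x ∈ I → T a x ∈ I := by
    intro a x hx
    rw [hmem] at hx ⊢
    intro g
    have h1 := hx (a⁻¹ * g)
    rw [← mv_mv, mem_mv, inv_inv] at h1
    exact h1
  obtain ⟨x₀, hx₀, hx₀0⟩ := Submodule.exists_mem_ne_zero_of_ne_bot hP0
  have hIb : I ≠ ⊥ := by
    intro hb
    have h1 : ∏ a : G, T a x₀ ∈ I := by
      rw [hmem]
      intro g
      exact Ideal.mem_of_dvd _ (Finset.dvd_prod_of_mem _ (Finset.mem_univ g))
        ((mem_mv' g P x₀).2 hx₀)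
    rw [hb, Ideal.mem_bot, Finset.prod_eq_zero_iff] at h1
    obtain ⟨a, _, ha⟩ := h1
    exact hx₀0 ((map_eq_zero_iff _ (T a).injective).1 ha)
  have hI2 : I * I ≠ 0 := mul_ne_zero hIb hIb
  obtain ⟨π, hπ⟩ := IsDedekindDomain.exists_sup_span_eq (I := I * I) (J := I) Ideal.mul_le_left hI2
  obtain ⟨e, he1, he2⟩ := Submodule.exists_sub_one_mem_and_smul_le_of_fg_of_le_sup
    (I := I) (N := Ideal.span {π}) (N' := I) (P := I) (IsNoetherian.noetherian I) le_rfl (by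
      rw [smul_eq_mul, sup_comm, hπ])
  have hπI : π ∈ I := by
    have h1 : π ∈ I * I ⊔ Ideal.span {π} :=
      Ideal.mem_sup_right (Ideal.mem_span_singleton_self π)
    rwa [hπ] at h1
  have hex : ∀ x ∈ I, ∃ y, e * x = y * π := by
    intro x hx
    have h1 : e • x ∈ Ideal.span {π} := he2 (Submodule.smul_mem_pointwise_smul _ _ _ hx)
    rw [Ideal.mem_span_singleton'] at h1
    obtain ⟨y, hy⟩ := h1
    exact ⟨y, by rw [hy, smul_eq_mul]⟩
  have hone : ∀ g, (1 : O) ∉ mv T g P := fun g hc =>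
    (mv_max g hP).ne_top ((Ideal.eq_top_iff_one _).2 hc)
  have heP : ∀ g, e ∉ mv T g P := by
    intro g hc
    apply hone g
    have h1 : (1 : O) = e - (e - 1) := by ring
    rw [h1]
    exact (mv T g P).sub_mem hc ((hmem _).1 he1 g)
  obtain ⟨ν, hν⟩ := normE h e
  refine ⟨π, ν, ?_, ?_, ?_, ?_⟩
  · rintro rfl
    rw [Ideal.span_singleton_zero, sup_bot_eq] at hπ
    have hle : ∀ x ∈ I, e * x = 0 := fun x hx => by
      obtain ⟨y, hy⟩ := hex x hx
      rw [hy, mul_zero]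
    obtain ⟨x, hx, hx0⟩ := Submodule.exists_mem_ne_zero_of_ne_bot hIb
    rcases mul_eq_zero.1 (hle x hx) with h1 | h1
    · exact heP 1 (by rw [h1]; exact Ideal.zero_mem _)
    · exact hx0 h1
  · intro g
    refine ⟨(hmem _).1 hπI g, fun hc => ?_⟩
    obtain ⟨t, ht, ht2⟩ := sepE (T := T) hP g
    have hmg : (mv T g P).IsMaximal := mv_max g hP
    have hpg : (mv T g P).IsPrime := hmg.isPrime
    obtain ⟨x, hx, hx2⟩ := Ideal.exists_mem_pow_notMem_pow_succ (mv T g P) (mv_ne g hP0)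
      hmg.ne_top 1
    rw [pow_one] at hx
    have h1 : t * x ∈ I := by
      rw [hmem]
      intro g'
      by_cases e' : mv T g' P = mv T g P
      · rw [e']
        exact Ideal.mul_mem_left _ _ hx
      · exact Ideal.mul_mem_right _ _ (ht2 g' e')
    obtain ⟨y, hy⟩ := hex _ h1
    have h2 : (e * t) * x ∈ mv T g P ^ 2 := by
      rw [mul_assoc, hy]
      exact Ideal.mul_mem_left _ _ hc
    rcases Ideal.IsPrime.mul_mem_pow (mv T g P) h2 with h3 | h3
    · rcases hpg.mem_or_mem h3 with h4 | h4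
      · exact heP g h4
      · exact ht h4
    · exact hx2 h3
  · intro g hc
    rw [hν] at hc
    have hpg : (mv T g P).IsPrime := (mv_max g hP).isPrime
    obtain ⟨a, _, ha⟩ := Ideal.IsPrime.prod_mem_iff.1 hc
    apply hone g
    have h1 : (1 : O) = T a e - T a (e - 1) := by
      rw [map_sub, map_one]
      ring
    rw [h1]
    exact (mv T g P).sub_mem ha ((hmem _).1 (hst a _ he1) g)
  · intro x hx
    obtain ⟨y, hy⟩ := hex x ((hmem x).2 hx)
    have h1 : ∏ a : G, T a e = e * ∏ a ∈ Finset.univ.erase (1 : G), T a e := by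
      rw [← Finset.mul_prod_erase Finset.univ _ (Finset.mem_univ (1 : G)), map_one,
        AlgEquiv.one_apply]
    refine ⟨(∏ a ∈ Finset.univ.erase (1 : G), T a e) * y, ?_⟩
    rw [hν, h1, mul_assoc, mul_comm _ x, ← mul_assoc, hy]
    ring

/-- Inertia and wild inertia. -/
theorem wlE [Finite G] {P : Ideal O} (hP : P.IsMaximal) {π s : O}
    (hπ : ∀ g, π ∈ mv T g P) (hs : ∀ g, s ∉ mv T g P) (hfs : ∀ g, T g s = s)
    (hx : ∀ x, (∀ g, x ∈ mv T g P) → ∃ y, s * x = y * π) (g₀ g : G)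
    (hg : ∀ o, T g o - o ∈ mv T g₀ P)
    (hw : ∀ y : O, s * T g π = y * π → y - s ∈ mv T g₀ P) :
    ∀ o ∈ mv T g₀ P, T g o - o ∈ mv T g₀ P ^ 2 := by
  intro o ho
  set Q : Ideal O := mv T g₀ P with hQ
  have hQm : Q.IsMaximal := mv_max g₀ hP
  have hQp : Q.IsPrime := hQm.isPrime
  obtain ⟨t, ht, ht2⟩ := sepE (T := T) hP g₀
  have h1 : ∀ g', t * o ∈ mv T g' P := by
    intro g'
    by_cases e' : mv T g' P = mv T g₀ P
    · rw [e']
      exact Ideal.mul_mem_left _ _ ho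
    · exact Ideal.mul_mem_right _ _ (ht2 g' e')
  obtain ⟨z, hz⟩ := hx _ h1
  have h2 : ∀ g', T g π ∈ mv T g' P := by
    intro g'
    have h3 := hπ (g⁻¹ * g')
    rw [← mv_mv, mem_mv, inv_inv] at h3
    exact h3
  obtain ⟨y, hy⟩ := hx _ h2
  have hys := hw y hy
  have hz' : s * (T g t * T g o) = T g z * T g π := by
    have h3 := congrArg (T g) hz
    rwa [map_mul, map_mul, map_mul, hfs] at h3
  have hTo : T g o ∈ Q := by
    have h3 := Q.add_mem (hg o) ho
    rwa [sub_add_cancel] at h3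
  have e1 : s ^ 2 * t * (T g o - o) = ((T g z - z) * y + z * (y - s)) * π -
      s ^ 2 * ((T g t - t) * T g o) := by
    have e2 : s * (s * (T g t * T g o)) = T g z * (y * π) := by
      rw [hz', ← hy]
      ring
    have e3 : s * (s * (t * o)) = s * (z * π) := by rw [hz]
    linear_combination e2 - e3
  have e4 : s ^ 2 * t * (T g o - o) ∈ Q ^ 2 := by
    rw [e1, pow_two Q]
    refine Ideal.sub_mem _ ?_ ?_
    · exact Ideal.mul_mem_mul (Q.add_mem (Q.mul_mem_right _ (hg z)) (Q.mul_mem_left _ hys))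
        (hπ g₀)
    · exact Ideal.mul_mem_left _ _ (Ideal.mul_mem_mul (hg t) hTo)
  rcases Ideal.IsPrime.mul_mem_pow Q e4 with h3 | h3
  · rcases hQp.mem_or_mem h3 with h4 | h4
    · exact absurd (hQp.mem_of_pow_mem 2 h4) (hs g₀)
    · exact absurd h4 ht
  · exact h3

end

end Pool.Agent.Y71.H
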